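import Pool.Agent.MP_48b1c3_nt.H69.Cor

namespace Pool.Agent.MP_48b1c3_nt.Old.EuclidFiniteC

open NumberField

/-- Outside finitely many fields, principal rings of `S`-integers are Euclidean. -/
theorem result : ∃ D : ℕ, ∀ (K : Type) [Field K] [NumberField K] (s : 𝓞 K) (R : Type)
    [CommRing R] [IsDomain R] [IsPrincipalIdealRing R] [Algebra (𝓞 K) R]
    [IsLocalization.Away s R], D ≤ (discr K).natAbs →
    (IsCMField K → D ≤ (discr (maximalRealSubfield K)).natAbs) →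
    (IsTotallyComplex K → IsCyclic (ClassGroup (𝓞 K))) →
    ∃ φ : R → ℕ, ∀ a b : R, b ≠ 0 → ∃ q r : R, a = b * q + r ∧ (r = 0 ∨ φ r < φ b) := by
  obtain ⟨D, h⟩ := MP_48b1c3_nt.H69.pid_form
  exact ⟨D, fun K _ _ s R _ _ _ _ _ => h K s R⟩

end Pool.Agent.MP_48b1c3_nt.Old.EuclidFiniteC
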