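import Pool.Agent.MP_48b1c3_nt.Mg.H48_HypP
import Pool.Agent.MP_48b1c3_nt.Mg.H91_Suff

namespace Pool.Agent.Results.MP_48b1c3_nt.EuclidLarge

open NumberField Pool.Agent.MP_48b1c3_nt.H91

/-- In large degree, generators of the class group of a ring of `S`-integers are Euclidean. -/
theorem result : ∃ n₀ : ℕ, ∀ (K : Type) [Field K] [NumberField K],
    n₀ ≤ Module.finrank ℚ K → ∀ (s : 𝓞 K) (R : Type) [CommRing R] [IsDedekindDomain R]
      [Algebra (𝓞 K) R] [IsLocalization.Away s R], GeneratorsEuclidean K R := by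
  obtain ⟨r₀, δ, hδ, h⟩ := MP_48b1c3_nt.H48.core_thr
  refine ⟨max 8 ⌈((r₀ : ℝ) + 1) / δ⌉₊, fun K _ _ hK s R _ _ _ _ => ?_⟩
  obtain ⟨h1, β, h2, h3⟩ := h K _ (MP_48b1c3_nt.H48.thr_of_degree hδ hK)
  exact euclid_of_core (s := s) h2 h1 (Nat.le_add_right _ _) h3

end Pool.Agent.Results.MP_48b1c3_nt.EuclidLarge
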