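import Pool.Agent.MP_48b1c3_nt.Mg.H54_Main

namespace Pool.Agent.Results.MP_48b1c3_nt.LogLogBound

open Pool.Agent.MP_48b1c3_nt.H54 Filter

/-- For groups `W` of large rank the set `S(Q, G, W, k)` has at least `c x log log x / (log x) ^ 2`
elements up to `x`, unless `k` is odd and `W` consists of squares. -/
theorem result : ∃ r₀ : ℕ, ∀ (W : Subgroup ℚˣ) (k : ℕ), W.FG →
    r₀ ≤ Module.finrank ℤ (Additive W) → 0 < k → (Even k ∨ ∃ w ∈ W, ¬ IsSquare (w : ℚ)) →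
    ∃ c : ℝ, 0 < c ∧ ∀ᶠ x : ℕ in Filter.atTop,
      c * x * Real.log (Real.log x) / Real.log x ^ 2 ≤
        Nat.card {q : ℕ // q ≤ x ∧ q.Prime ∧ (∀ w ∈ W, padicValRat q (w : ℚ) = 0) ∧
          (Subgroup.closure {u : (ZMod q)ˣ | ∃ w ∈ W, (((w : ℚ).num : ℤ) : ZMod q) =
            (u : ZMod q) * (((w : ℚ).den : ℕ) : ZMod q)}).index ∣ k} := by
  obtain ⟨r₀, h⟩ := smooth_index
  refine ⟨r₀, fun W k hW hr _ hk => ?_⟩
  obtain ⟨M, c, h1, h2, h3, h4⟩ := exists_good_class W hk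
  obtain ⟨κ, hκ, h5⟩ := h W hW hr M c h1 h2 h3
  refine ⟨κ, hκ, (tendsto_natCast_atTop_atTop.eventually h5).mono fun x ⟨G, g1, g2⟩ =>
    g1.trans ?_⟩
  rw [← Nat.card_eq_finsetCard]
  refine Nat.cast_le.2 (Nat.card_mono ((Set.finite_Iic x).subset fun q hq => hq.1) fun p hp => ?_)
  obtain ⟨p1, p2, p3, p4, p5⟩ := g2 p hp
  have := Fact.mk p1
  obtain ⟨c1, c2⟩ := h4 p p1 p3 p4
  refine ⟨by exact_mod_cast p2, p1, p4, c2 fun q hq hq' => ?_⟩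
  by_contra h6
  exact c1 q hq h6 (p5 q hq hq') (hq'.trans (index_dvd W p))

end Pool.Agent.Results.MP_48b1c3_nt.LogLogBound
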