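import Pool.Agent.MP_48b1c3_nt.Mg.H53_Main

namespace Pool.Agent.Results.MP_48b1c3_nt.RankOne

open Pool.Agent.MP_48b1c3_nt Filter

/-- Groups of rank one: among `R` rationals `a i`, any `r₀` of which are multiplicatively
independent, some set `S(Q, G, <a i>, k i)` has at least `c x (log log log x) ^ K / (log x) ^ 2`
elements up to `x`. -/
theorem result : ∃ r₀ : ℕ, ∀ K : ℕ, ∃ R : ℕ, ∀ (a : Fin R → ℚˣ) (k : Fin R → ℕ),
    (∀ s : Finset (Fin R), s.card = r₀ →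
      LinearIndependent ℤ fun i : s => Additive.ofMul (a i)) →
    (∀ i, 0 < k i) → (∀ i, Even (k i) ∨ ¬ IsSquare (a i : ℚ)) →
    ∃ c : ℝ, 0 < c ∧ ∀ᶠ x : ℕ in Filter.atTop, ∃ i : Fin R,
      c * x * Real.log (Real.log (Real.log x)) ^ K / Real.log x ^ 2 ≤
        Nat.card {q : ℕ // q ≤ x ∧ q.Prime ∧
          (∀ w ∈ Subgroup.zpowers (a i), padicValRat q (w : ℚ) = 0) ∧
          (Subgroup.closure {u : (ZMod q)ˣ | ∃ w ∈ Subgroup.zpowers (a i),
            (((w : ℚ).num : ℤ) : ZMod q) =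
              (u : ZMod q) * (((w : ℚ).den : ℕ) : ZMod q)}).index ∣ k i} := by
  obtain ⟨r₀, h⟩ := H53.rank_one
  refine ⟨r₀, fun K => (h K).imp fun R h a k h1 _ h2 => (h a k h1 h2).imp fun c ⟨hc, h3⟩ =>
    ⟨hc, (tendsto_natCast_atTop_atTop.eventually h3).mono fun x ⟨i, G, g1, g2⟩ =>
      ⟨i, g1.trans ?_⟩⟩⟩
  rw [← Nat.card_eq_finsetCard]
  refine Nat.cast_le.2 (Nat.card_mono ((Set.finite_Iic x).subset fun q hq => hq.1) fun p hp => ?_)
  obtain ⟨p1, p2, p3, p4⟩ := g2 p hp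
  exact ⟨by exact_mod_cast p2, p1, p3, p4⟩

end Pool.Agent.Results.MP_48b1c3_nt.RankOne
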